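import Mathlib
import Pool.Agent.Helper340.Crit12
import Pool.Agent.Helper340.Play12
import Pool.Agent.Helper340.Hyper3
import Pool.Agent.Helper340.Hyper3b

set_option autoImplicit false

namespace Pool.Agent.Results.MP_90b739_co.UnderdogCliques

open Finset

/-- A position: the set of triples claimed so far by Maker and the set claimed by Breaker. -/
structure Pos (N : ℕ) where
  maker : Finset (Finset (Fin N))
  breaker : Finset (Finset (Fin N))

/-- The board: all three-element subsets of the `N` vertices. -/
def board (N : ℕ) : Finset (Finset (Fin N)) := powersetCard 3 univ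

/-- The triples that nobody has claimed yet. -/
def free {N : ℕ} (p : Pos N) : Finset (Finset (Fin N)) := board N \ (p.maker ∪ p.breaker)

/-- The play in which Maker follows the strategy `σ` and Breaker claims the set `R i` in his
`i`-th turn: `play σ R i` is the position after `i` rounds. In each round Maker first claims one
triple and then Breaker claims his triples. -/
def play {N : ℕ} (σ : Pos N → Finset (Fin N)) (R : ℕ → Finset (Finset (Fin N))) : ℕ → Pos N
  | 0 => ⟨∅, ∅⟩
  | i + 1 => ⟨insert (σ (play σ R i)) (play σ R i).maker, (play σ R i).breaker ∪ R i⟩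

/-- Maker's strategy always names a free triple as long as there is one. -/
def LegalStrategy {N : ℕ} (σ : Pos N → Finset (Fin N)) : Prop :=
  ∀ p, (free p).Nonempty → σ p ∈ free p

/-- Breaker's turns are legal: in every round that starts with a free triple, he claims exactly two
of the triples that are still free after Maker's move (all of them, if fewer than two are left). -/
def LegalReplies {N : ℕ} (σ : Pos N → Finset (Fin N)) (R : ℕ → Finset (Finset (Fin N))) : Prop :=
  ∀ i, (free (play σ R i)).Nonempty →
    R i ⊆ (free (play σ R i)).erase (σ (play σ R i)) ∧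
    (R i).card = min 2 ((free (play σ R i)).erase (σ (play σ R i))).card

/-- Maker has a strategy which, against every play of Breaker, guarantees that at the end of the
play, that is after the first round `i` after which all triples are claimed, there is a set `S` of
`q` vertices all of whose triples were claimed by Maker. -/
def MakerCanOccupy (N q : ℕ) : Prop :=
  ∃ σ : Pos N → Finset (Fin N), LegalStrategy σ ∧
    ∀ R : ℕ → Finset (Finset (Fin N)), LegalReplies σ R →
      ∃ i, (∀ j < i, (free (play σ R j)).Nonempty) ∧ free (play σ R i) = ∅ ∧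
        ∃ S : Finset (Fin N), S.card = q ∧ powersetCard 3 S ⊆ (play σ R i).maker

section strategy

open Pool.Agent.Helper340.Play12

/-- the goal -/
def HasClique {N : ℕ} (q : ℕ) (M : Finset (Finset (Fin N))) : Prop :=
  ∃ S : Finset (Fin N), S.card = q ∧ powersetCard 3 S ⊆ M

/-- a winning move -/
def Good {N : ℕ} (q : ℕ) (p : Pos N) (x : Finset (Fin N)) : Prop :=
  x ∈ free p ∧ ∀ R ⊆ (free p).erase x, R.card = min 2 ((free p).erase x).card →
    Forces (board N) (HasClique q) (insert x p.maker) (p.breaker ∪ R)

open Classical in
/-- the winning strategy -/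
noncomputable def strat {N : ℕ} (q : ℕ) (p : Pos N) : Finset (Fin N) :=
  if h : ∃ x, Good q p x then h.choose else if h' : (free p).Nonempty then h'.choose else ∅

lemma strat_legal {N : ℕ} (q : ℕ) : LegalStrategy (strat q : Pos N → Finset (Fin N)) := by
  intro p hp
  unfold strat
  split_ifs with h
  · exact h.choose_spec.1
  · exact hp.choose_spec

lemma strat_good {N : ℕ} (q : ℕ) (p : Pos N) (h : ∃ x, Good q p x) : Good q p (strat q p) := by
  unfold strat
  rw [dif_pos h]
  exact h.choose_spec

lemma exists_good {N q : ℕ} {p : Pos N} (hf : Forces (board N) (HasClique q) p.maker p.breaker)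
    (hne : (free p).Nonempty) : ∃ x, Good q p x := by
  obtain ⟨M, B⟩ := p
  cases hf with
  | done h0 hg =>
    exfalso
    unfold free at hne
    rw [h0] at hne
    exact Finset.not_nonempty_empty hne
  | move x hx h => exact ⟨x, hx, h⟩

lemma forces_goal {N q : ℕ} {p : Pos N} (hf : Forces (board N) (HasClique q) p.maker p.breaker)
    (he : free p = ∅) : HasClique q p.maker := by
  obtain ⟨M, B⟩ := p
  cases hf with
  | done h0 hg => exact hg
  | move x hx h =>
    exfalso
    unfold free at he
    rw [he] at hx
    exact Finset.notMem_empty x hx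

lemma canOccupy_of_forces {N q : ℕ} (h : Forces (board N) (HasClique q) ∅ ∅) :
    MakerCanOccupy N q := by
  refine ⟨strat q, strat_legal q, ?_⟩
  intro R hR
  have hinv : ∀ i, (∀ j < i, (free (play (strat q) R j)).Nonempty) →
      Forces (board N) (HasClique q) (play (strat q) R i).maker (play (strat q) R i).breaker := by
    intro i
    induction i with
    | zero => intro _; exact h
    | succ i ih =>
      intro hj
      have h1 := ih (fun j hji => hj j (by omega))
      have h2 := hj i (by omega)
      have h3 := strat_good q _ (exists_good h1 h2)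
      obtain ⟨h4, h5⟩ := hR i h2
      exact h3.2 (R i) h4 h5
  have hend : ∃ i, free (play (strat q) R i) = ∅ := by
    by_contra hcon
    push Not at hcon
    have hne : ∀ i, (free (play (strat q) R i)).Nonempty := fun i =>
      hcon i
    have hdec : ∀ i, (free (play (strat q) R (i + 1))).card < (free (play (strat q) R i)).card := by
      intro i
      apply Finset.card_lt_card
      have hx := strat_legal q _ (hne i)
      refine ⟨?_, ?_⟩
      · intro y hy
        unfold free play at hy
        unfold free
        simp only [mem_sdiff, mem_union, mem_insert, not_or] at hy ⊢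
        exact ⟨hy.1, hy.2.1.2, hy.2.2.1⟩
      · intro hc
        have := hc hx
        unfold free at this
        rw [mem_sdiff] at this
        apply this.2
        have h6 : (play (strat q) R (i + 1)).maker
            = insert (strat q (play (strat q) R i)) (play (strat q) R i).maker := rfl
        rw [h6]
        simp
    have hle : ∀ i, (free (play (strat q) R i)).card + i ≤ (free (play (strat q) R 0)).card := by
      intro i
      induction i with
      | zero => simp
      | succ i ih => have := hdec i; omega
    have h1 := hle ((free (play (strat q) R 0)).card + 1)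
    omega
  classical
  let i := Nat.find hend
  have hi := Nat.find_spec hend
  have hmin : ∀ j < i, (free (play (strat q) R j)).Nonempty := fun j hj =>
    Finset.nonempty_iff_ne_empty.mpr (Nat.find_min hend hj)
  exact ⟨i, hmin, hi, forces_goal (hinv i hmin) hi⟩

end strategy

/-- **Underdog Maker in the (1:2) game on triples.** There is a constant `c > 0` such that for all
sufficiently large `N` Maker, claiming one triple per turn against two triples of Breaker, can
always occupy a sub-clique on some `q ≥ c √(log N)` vertices. -/
theorem result :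
    ∃ c : ℝ, 0 < c ∧ ∃ N₀ : ℕ, ∀ N : ℕ, N₀ ≤ N →
      ∃ q : ℕ, 3 ≤ q ∧ c * Real.sqrt (Real.log N) ≤ q ∧ MakerCanOccupy N q := by
  refine ⟨1 / 20, by norm_num, ⌈Real.exp 1600⌉₊, ?_⟩
  intro N hN
  have hN1 : Real.exp 1600 ≤ (N : ℝ) := (Nat.le_ceil _).trans (by exact_mod_cast hN)
  have hNpos : (0 : ℝ) < N := lt_of_lt_of_le (Real.exp_pos _) hN1
  have hlog : 1600 ≤ Real.log N := by
    rw [Real.le_log_iff_exp_le hNpos]; exact hN1
  set s := Real.sqrt (Real.log N) with hs
  have hs2 : s ^ 2 = Real.log N := Real.sq_sqrt (by linarith)
  have hs40 : 40 ≤ s := by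
    rw [hs]
    apply Real.le_sqrt_of_sq_le
    norm_num
    exact hlog
  have hfl : (⌊s / 10⌋₊ : ℝ) ≤ s / 10 := Nat.floor_le (by positivity)
  have hfg : s / 10 - 1 < (⌊s / 10⌋₊ : ℝ) := Nat.sub_one_lt_floor _
  have hq3 : 3 ≤ ⌊s / 10⌋₊ := by
    rw [Nat.le_floor_iff (by positivity)]
    push_cast
    linarith
  refine ⟨⌊s / 10⌋₊, hq3, by linarith, ?_⟩
  apply canOccupy_of_forces
  have hmain : ⌊s / 10⌋₊ * 2 ^ (100 * ⌊s / 10⌋₊ ^ 2) ≤ Fintype.card (Fin N) := by
    rw [Fintype.card_fin]
    set q := ⌊s / 10⌋₊ with hq
    have h1 : q ≤ 2 ^ (q ^ 2) := by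
      have a1 : q ≤ q ^ 2 := Nat.le_self_pow (by norm_num) q
      have a2 : q < 2 ^ q := Nat.lt_two_pow_self
      have a3 : 2 ^ q ≤ 2 ^ (q ^ 2) := Nat.pow_le_pow_right (by norm_num) a1
      omega
    have h2 : q * 2 ^ (100 * q ^ 2) ≤ 2 ^ (101 * q ^ 2) := by
      calc q * 2 ^ (100 * q ^ 2) ≤ 2 ^ (q ^ 2) * 2 ^ (100 * q ^ 2) :=
            Nat.mul_le_mul_right _ h1
        _ = 2 ^ (101 * q ^ 2) := by rw [← pow_add]; congr 1; ring
    refine h2.trans ?_
    have h3 : ((2 : ℝ) ^ (101 * q ^ 2)) ≤ (N : ℝ) := by
      rw [← Real.exp_log (show (0 : ℝ) < 2 ^ (101 * q ^ 2) by positivity), ← Real.exp_log hNpos]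
      apply Real.exp_le_exp.mpr
      rw [Real.log_pow]
      push_cast
      have h4 : (q : ℝ) ^ 2 ≤ (s / 10) ^ 2 := pow_le_pow_left₀ (Nat.cast_nonneg q) hfl 2
      have h5 : (s / 10) ^ 2 = Real.log N / 100 := by rw [div_pow, hs2]; norm_num
      rw [h5] at h4
      have h6 : Real.log 2 < 0.7 := by
        have := Real.log_two_lt_d9; linarith
      have h7 : 0 < Real.log 2 := Real.log_pos (by norm_num)
      have h8 : 0 ≤ (q : ℝ) ^ 2 := by positivity
      nlinarith
    exact_mod_cast h3
  exact Pool.Agent.Helper340.Hyper3.clique_forces hq3 hmain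

end Pool.Agent.Results.MP_90b739_co.UnderdogCliques
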